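import Pool.Agent.Helper60.FF.DefsA

set_option autoImplicit false

/-! UNQL: the solution of the basic system is unique up to scalars. -/

namespace Pool.Agent.Helper60.FF

open Polynomial

theorem unql_coeff {F : Type} [Field F] (f : Polynomial F) (k : ℕ) :
    (X * derivative f).coeff k = (k : F) * f.coeff k := by
  cases k with
  | zero => simp
  | succ k =>
    rw [coeff_X_mul, coeff_derivative]
    push_cast
    ring

theorem unql_deg {F : Type} [Field F] (f : Polynomial F) :
    (X * derivative f).natDegree ≤ f.natDegree := by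
  rw [natDegree_le_iff_coeff_eq_zero]
  intro N hN
  rw [unql_coeff, coeff_eq_zero_of_natDegree_lt hN, mul_zero]

theorem unql_zero {F : Type} [Field F] (p n : ℕ) (hc : CharP F p) (hn : 2 * n < p)
    (w : F) (b : Bool) (D : Polynomial F) (hD : D.natDegree ≤ 2 * n)
    (h : ∀ i, i ≤ 2 * n → D.eval (pt w b i) = 0) : D = 0 := by
  refine Polynomial.eq_zero_of_natDegree_lt_card_of_eval_eq_zero D
    (f := fun i : Fin (2 * n + 1) => pt w b (i : ℕ)) ?_ ?_ ?_
  · intro i j hij
    unfold pt at hij
    have h1 : ((i : ℕ) : F) = ((j : ℕ) : F) := add_left_cancel hij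
    have h2 := CharP.natCast_injOn_Iio F p (x₁ := (i : ℕ)) (x₂ := (j : ℕ))
      (Set.mem_Iio.2 (by omega)) (Set.mem_Iio.2 (by omega)) h1
    exact Fin.ext h2
  · intro i
    exact h i (by omega)
  · rw [Fintype.card_fin]
    omega

/-- proportionality from the vanishing of the Wronskian -/
theorem unql_wr {F : Type} [Field F] (p n : ℕ) (hc : CharP F p) (hn : 2 * n < p)
    (f g : Polynomial F) (hf : f.natDegree ≤ n) (hg : g.natDegree ≤ n) (hf0 : f ≠ 0)
    (h : derivative f * g = derivative g * f) : ∃ s : F, g = C s * f := by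
  have key : ∀ g : Polynomial F, g.natDegree ≤ n → derivative f * g = derivative g * f →
      g ≠ 0 → g.natDegree = f.natDegree := by
    intro g hg h hg0
    have h1 : (X * derivative f) * g = (X * derivative g) * f := by
      rw [mul_assoc, h, mul_assoc]
    have h2 : ((X * derivative f) * g).coeff (f.natDegree + g.natDegree) =
        ((f.natDegree : F) * f.coeff f.natDegree) * g.coeff g.natDegree := by
      rw [coeff_mul_add_eq_of_natDegree_le (unql_deg f) le_rfl, unql_coeff]
    have h3 : ((X * derivative g) * f).coeff (g.natDegree + f.natDegree) =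
        ((g.natDegree : F) * g.coeff g.natDegree) * f.coeff f.natDegree := by
      rw [coeff_mul_add_eq_of_natDegree_le (unql_deg g) le_rfl, unql_coeff]
    rw [h1, add_comm, h3] at h2
    have ha : f.coeff f.natDegree ≠ 0 := by
      rw [coeff_natDegree]
      exact leadingCoeff_ne_zero.2 hf0
    have hb : g.coeff g.natDegree ≠ 0 := by
      rw [coeff_natDegree]
      exact leadingCoeff_ne_zero.2 hg0
    have h4 : (g.natDegree : F) = (f.natDegree : F) := by
      have h5 : ((g.natDegree : F) - (f.natDegree : F)) *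
          (f.coeff f.natDegree * g.coeff g.natDegree) = 0 := by
        linear_combination h2
      rcases mul_eq_zero.1 h5 with h6 | h6
      · exact sub_eq_zero.1 h6
      · exact absurd h6 (mul_ne_zero ha hb)
    exact CharP.natCast_injOn_Iio F p (Set.mem_Iio.2 (by omega)) (Set.mem_Iio.2 (by omega)) h4
  by_cases hg0 : g = 0
  · exact ⟨0, by rw [hg0, C_0, zero_mul]⟩
  have hdeg := key g hg h hg0
  have ha : f.coeff f.natDegree ≠ 0 := by
    rw [coeff_natDegree]
    exact leadingCoeff_ne_zero.2 hf0
  refine ⟨g.coeff f.natDegree / f.coeff f.natDegree, ?_⟩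
  obtain ⟨s, hs⟩ : ∃ s : F, s = g.coeff f.natDegree / f.coeff f.natDegree := ⟨_, rfl⟩
  rw [← hs]
  by_contra hne
  have hk0 : g - C s * f ≠ 0 := sub_ne_zero.2 hne
  have hkd : (g - C s * f).natDegree ≤ n := by
    refine (natDegree_sub_le _ _).trans (max_le hg ?_)
    exact (natDegree_C_mul_le _ _).trans hf
  have hkw : derivative f * (g - C s * f) = derivative (g - C s * f) * f := by
    rw [derivative_sub, derivative_C_mul, mul_sub, sub_mul, h]
    ring
  have h7 := key _ hkd hkw hk0
  have h8 : (g - C s * f).coeff f.natDegree = 0 := by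
    rw [coeff_sub, coeff_C_mul, hs, div_mul_cancel₀ _ ha, sub_self]
  rw [← h7, coeff_natDegree] at h8
  exact hk0 (leadingCoeff_eq_zero.1 h8)

theorem st_UNQL : ST_UNQL := by
  intro F _ p n hp hc hn w e A χ₁ ψ₁ χ₂ ψ₂ he h1 h2 hχ
  obtain ⟨a1, b1, s1⟩ := h1
  obtain ⟨a2, b2, s2⟩ := h2
  have hD : ψ₁ * χ₂ - ψ₂ * χ₁ = 0 := by
    refine unql_zero p n hc hn w false _ ?_ ?_
    · refine (natDegree_sub_le _ _).trans (max_le ?_ ?_)
      · exact natDegree_mul_le.trans (by omega)
      · exact natDegree_mul_le.trans (by omega)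
    · intro i hi
      have e1 := s1 false i hi
      have e2 := s2 false i hi
      simp only [Bool.false_eq_true, if_false, add_zero] at e1 e2
      rw [eval_sub, eval_mul, eval_mul, e1, e2]
      ring
  have hD' : ψ₁ * χ₂ = ψ₂ * χ₁ := sub_eq_zero.1 hD
  have hder : ∀ f : Polynomial F, f.natDegree ≤ n → (derivative f).natDegree ≤ n := by
    intro f hf
    exact (natDegree_derivative_le f).trans (by omega)
  have hW : derivative χ₁ * χ₂ - derivative χ₂ * χ₁ = 0 := by
    refine unql_zero p n hc hn w true _ ?_ ?_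
    · refine (natDegree_sub_le _ _).trans (max_le ?_ ?_)
      · exact natDegree_mul_le.trans (by have := hder χ₁ a1; omega)
      · exact natDegree_mul_le.trans (by have := hder χ₂ a2; omega)
    · intro i hi
      have e1 := s1 true i hi
      have e2 := s2 true i hi
      simp only [if_true] at e1 e2
      have e3 : ψ₁.eval (pt w true i) * χ₂.eval (pt w true i) =
          ψ₂.eval (pt w true i) * χ₁.eval (pt w true i) := by
        rw [← eval_mul, hD', eval_mul]
      rw [eval_sub, eval_mul, eval_mul]
      have e4 : e * ((derivative χ₁).eval (pt w true i) * χ₂.eval (pt w true i) -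
          (derivative χ₂).eval (pt w true i) * χ₁.eval (pt w true i)) = 0 := by
        linear_combination (χ₂.eval (pt w true i)) * e1 - (χ₁.eval (pt w true i)) * e2 - e3
      rcases mul_eq_zero.1 e4 with h | h
      · exact absurd h he
      · exact h
  obtain ⟨s, hs⟩ := unql_wr p n hc hn χ₁ χ₂ a1 a2 hχ (sub_eq_zero.1 hW)
  refine ⟨s, hs, ?_⟩
  rw [hs] at hD'
  have h9 : ψ₂ * χ₁ = (C s * ψ₁) * χ₁ := by
    rw [← hD']
    ring
  exact mul_right_cancel₀ hχ h9

end Pool.Agent.Helper60.FF
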